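import Mathlib

/-!
# Strict monotonicity of the optimal coherence in the dimension

For `N` unit vectors `f_1, …, f_N` of `ℝ^M` with coherence `c > 0` the vectors
`f_i' = (√(1 - a_i²) f_i, a_i)` of `ℝ^{M+1}`, where `a_i = ε^(i+1)` with `0 < ε < c / 2`, have all
absolute inner products at most `c - δ`, where `δ > 0` depends on `N` and `ε` only.  Indeed for
`b ≤ ε a` one has `√(1-a²) √(1-b²) c + a b ≤ c (1 - a²/2) + ε a² = c - a² (c/2 - ε)`.
Since `N > M` unit vectors of `ℝ^M` always have coherence at least `1/N`, this gives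
`μ(N, M+1) < μ(N, M)`.
-/

namespace Pool.Agent.Results.MP_9149b8_co.StrictMonotone

/-- The worst-case coherence of a sequence `f` of `N` vectors of `ℝ^M`: the maximum
of `|⟨f i, f j⟩|` over all pairs `i ≠ j`. -/
noncomputable def coherence {N M : ℕ} (f : Fin N → EuclideanSpace ℝ (Fin M)) : ℝ :=
  ⨆ p : {p : Fin N × Fin N // p.1 ≠ p.2}, |inner ℝ (f p.1.1) (f p.1.2)|

/-- The optimal coherence `μ(N, M)`: the infimum (it is a minimum) of the
coherences of all sequences of `N` unit vectors of `ℝ^M`. -/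
noncomputable def optimalCoherence (N M : ℕ) : ℝ :=
  sInf {c : ℝ | ∃ f : Fin N → EuclideanSpace ℝ (Fin M), (∀ i, ‖f i‖ = 1) ∧ c = coherence f}

lemma le_coherence {N M : ℕ} (f : Fin N → EuclideanSpace ℝ (Fin M)) {i j : Fin N} (h : i ≠ j) :
    |inner ℝ (f i) (f j)| ≤ coherence f := by
  have hb : BddAbove (Set.range fun p : {p : Fin N × Fin N // p.1 ≠ p.2} =>
      |inner ℝ (f p.1.1) (f p.1.2)|) := Set.Finite.bddAbove (Set.finite_range _)
  exact le_ciSup hb ⟨(i, j), h⟩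

lemma coherence_le {N M : ℕ} (hN : 2 ≤ N) (f : Fin N → EuclideanSpace ℝ (Fin M)) {c : ℝ}
    (h : ∀ i j : Fin N, i ≠ j → |inner ℝ (f i) (f j)| ≤ c) : coherence f ≤ c := by
  have : Nonempty {p : Fin N × Fin N // p.1 ≠ p.2} :=
    ⟨⟨(⟨0, by omega⟩, ⟨1, by omega⟩), by simp [Fin.ext_iff]⟩⟩
  exact ciSup_le fun p => h p.1.1 p.1.2 p.2

/-- `N > M` unit vectors of `ℝ^M` have coherence at least `1 / N`. -/
lemma one_div_le_coherence {N M : ℕ} (hN : 2 ≤ N) (hMN : M + 1 ≤ N)
    (f : Fin N → EuclideanSpace ℝ (Fin M)) (hf : ∀ i, ‖f i‖ = 1) : 1 / (N : ℝ) ≤ coherence f := by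
  have hdep : ¬ LinearIndependent ℝ f := by
    intro hli
    have := hli.fintype_card_le_finrank
    simp at this
    omega
  rw [Fintype.not_linearIndependent_iff] at hdep
  obtain ⟨x, hx, i0, hi0⟩ := hdep
  have : Nonempty (Fin N) := ⟨i0⟩
  obtain ⟨i, hi⟩ := Finite.exists_max (fun i => |x i|)
  have hipos : 0 < |x i| := lt_of_lt_of_le (abs_pos.mpr hi0) (hi i0)
  have hc0 : 0 ≤ coherence f := by
    have h01 : (⟨0, by omega⟩ : Fin N) ≠ ⟨1, by omega⟩ := by simp [Fin.ext_iff]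
    exact le_trans (abs_nonneg _) (le_coherence f h01)
  have h0 : (0 : ℝ) = ∑ j, x j * inner ℝ (f j) (f i) := by
    have : inner ℝ (∑ j, x j • f j) (f i) = (0 : ℝ) := by rw [hx]; simp
    rw [sum_inner] at this
    rw [← this]
    refine Finset.sum_congr rfl fun j _ => ?_
    rw [real_inner_smul_left]
  rw [← Finset.add_sum_erase _ _ (Finset.mem_univ i)] at h0
  have hii : inner ℝ (f i) (f i) = (1 : ℝ) := by
    rw [real_inner_self_eq_norm_sq, hf i]; norm_num
  rw [hii, mul_one] at h0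
  have h1 : |x i| = |∑ j ∈ Finset.univ.erase i, x j * inner ℝ (f j) (f i)| := by
    have : x i = -∑ j ∈ Finset.univ.erase i, x j * inner ℝ (f j) (f i) := by linarith
    conv_lhs => rw [this]
    rw [abs_neg]
  have h2 : |x i| ≤ ∑ j ∈ Finset.univ.erase i, |x i| * coherence f := by
    rw [h1]
    refine (Finset.abs_sum_le_sum_abs _ _).trans ?_
    refine Finset.sum_le_sum fun j hj => ?_
    rw [abs_mul]
    rw [← h1]
    exact mul_le_mul (hi j) (le_coherence f (Finset.ne_of_mem_erase hj)) (abs_nonneg _)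
      (abs_nonneg _)
  rw [Finset.sum_const, Finset.card_erase_of_mem (Finset.mem_univ i), Finset.card_univ,
    Fintype.card_fin, nsmul_eq_mul] at h2
  have h3 : |x i| * 1 ≤ |x i| * (((N - 1 : ℕ) : ℝ) * coherence f) := by linarith
  have h4 : 1 ≤ ((N - 1 : ℕ) : ℝ) * coherence f := le_of_mul_le_mul_left h3 hipos
  have h5 : ((N - 1 : ℕ) : ℝ) ≤ N := by exact_mod_cast Nat.sub_le N 1
  have h6 : 1 ≤ (N : ℝ) * coherence f := h4.trans (mul_le_mul_of_nonneg_right h5 hc0)
  have hNpos : (0 : ℝ) < N := by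
    have : 0 < N := by omega
    exact_mod_cast this
  rw [div_le_iff₀ hNpos]
  linarith

/-- The lifted vector `(√(1 - a²) v, a)`. -/
noncomputable def lift {M : ℕ} (v : EuclideanSpace ℝ (Fin M)) (a : ℝ) :
    EuclideanSpace ℝ (Fin (M + 1)) :=
  WithLp.toLp 2 (Fin.snoc (α := fun _ => ℝ) (fun k => Real.sqrt (1 - a ^ 2) * v k) a)

lemma inner_lift {M : ℕ} (v w : EuclideanSpace ℝ (Fin M)) (a b : ℝ) :
    inner ℝ (lift v a) (lift w b)
      = Real.sqrt (1 - a ^ 2) * Real.sqrt (1 - b ^ 2) * inner ℝ v w + a * b := by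
  rw [PiLp.inner_apply, Fin.sum_univ_castSucc, PiLp.inner_apply, Finset.mul_sum]
  simp only [lift, Fin.snoc_castSucc, Fin.snoc_last]
  congr 1
  · refine Finset.sum_congr rfl fun k _ => ?_
    simp only [RCLike.inner_apply, conj_trivial]
    ring
  · simp only [RCLike.inner_apply, conj_trivial]
    ring

lemma norm_lift {M : ℕ} (v : EuclideanSpace ℝ (Fin M)) (hv : ‖v‖ = 1) (a : ℝ) (ha : a ^ 2 ≤ 1) :
    ‖lift v a‖ = 1 := by
  have h : inner ℝ (lift v a) (lift v a) = (1 : ℝ) := by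
    rw [inner_lift, real_inner_self_eq_norm_sq, hv, ← sq, Real.sq_sqrt (by linarith)]
    ring
  rw [real_inner_self_eq_norm_sq] at h
  have h0 := norm_nonneg (lift v a)
  nlinarith

/-- The key inequality. -/
lemma key {a b c x ε : ℝ} (ha0 : 0 < a) (ha1 : a ≤ 1) (hb0 : 0 < b) (hb : b ≤ ε * a)
    (hb1 : b ≤ 1) (hx : |x| ≤ c) :
    |Real.sqrt (1 - a ^ 2) * Real.sqrt (1 - b ^ 2) * x + a * b| ≤ c - a ^ 2 * (c / 2 - ε) := by
  have hc : 0 ≤ c := (abs_nonneg x).trans hx
  have hsa : Real.sqrt (1 - a ^ 2) ≤ 1 - a ^ 2 / 2 := by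
    apply Real.sqrt_le_iff.mpr
    constructor
    · nlinarith
    · nlinarith [sq_nonneg (a ^ 2)]
  have hsb : Real.sqrt (1 - b ^ 2) ≤ 1 := by
    apply Real.sqrt_le_one.mpr
    nlinarith [sq_nonneg b]
  have hsa0 := Real.sqrt_nonneg (1 - a ^ 2)
  have hsb0 := Real.sqrt_nonneg (1 - b ^ 2)
  have h1 : |Real.sqrt (1 - a ^ 2) * Real.sqrt (1 - b ^ 2) * x| ≤ (1 - a ^ 2 / 2) * c := by
    rw [abs_mul, abs_of_nonneg (mul_nonneg hsa0 hsb0)]
    have h2 : Real.sqrt (1 - a ^ 2) * Real.sqrt (1 - b ^ 2) ≤ (1 - a ^ 2 / 2) * 1 :=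
      mul_le_mul hsa hsb hsb0 (by nlinarith)
    rw [mul_one] at h2
    exact mul_le_mul h2 hx (abs_nonneg _) (by nlinarith)
  have h3 : |a * b| ≤ ε * a ^ 2 := by
    rw [abs_of_pos (mul_pos ha0 hb0)]
    nlinarith
  calc _ ≤ |Real.sqrt (1 - a ^ 2) * Real.sqrt (1 - b ^ 2) * x| + |a * b| := abs_add_le _ _
    _ ≤ (1 - a ^ 2 / 2) * c + ε * a ^ 2 := add_le_add h1 h3
    _ = c - a ^ 2 * (c / 2 - ε) := by ring

/-- **Main theorem.**  For all `N ≥ 2` and `1 ≤ M ≤ N - 1`, the optimal coherence of `N` unit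
vectors strictly decreases when the dimension grows from `M` to `M + 1`. -/
theorem result (N M : ℕ) (hN : 2 ≤ N) (hM : 1 ≤ M) (hMN : M ≤ N - 1) :
    optimalCoherence N (M + 1) < optimalCoherence N M := by
  have hMN' : M + 1 ≤ N := by omega
  have hNpos : (0 : ℝ) < N := by
    have : 0 < N := by omega
    exact_mod_cast this
  have hN1 : (1 : ℝ) ≤ N := by
    have : 1 ≤ N := by omega
    exact_mod_cast this
  set ε : ℝ := 1 / (4 * N) with hε
  have hεpos : 0 < ε := by positivity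
  have hε1 : ε ≤ 1 := by
    rw [hε, div_le_one (by positivity)]
    linarith
  set δ : ℝ := (ε ^ N) ^ 2 * (1 / (4 * N)) with hδ
  have hδpos : 0 < δ := by positivity
  -- every admissible coherence can be lowered by `δ`
  have hmain : ∀ f : Fin N → EuclideanSpace ℝ (Fin M), (∀ i, ‖f i‖ = 1) →
      optimalCoherence N (M + 1) ≤ coherence f - δ := by
    intro f hf
    have hc : 1 / (N : ℝ) ≤ coherence f := one_div_le_coherence hN hMN' f hf
    set c := coherence f with hcdef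
    set g : Fin N → EuclideanSpace ℝ (Fin (M + 1)) := fun i => lift (f i) (ε ^ (i.1 + 1)) with hg
    have hpow1 : ∀ n : ℕ, ε ^ (n + 1) ≤ 1 := fun n => pow_le_one₀ hεpos.le hε1
    have hpow0 : ∀ n : ℕ, 0 < ε ^ (n + 1) := fun n => pow_pos hεpos _
    have hgn : ∀ i, ‖g i‖ = 1 := by
      intro i
      refine norm_lift _ (hf i) _ ?_
      have := hpow1 i.1
      have := hpow0 i.1
      nlinarith
    have hlt : ∀ i j : Fin N, i < j → |inner ℝ (g i) (g j)| ≤ c - δ := by
      intro i j hij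
      have hij' : i.1 < j.1 := hij
      simp only [hg]
      rw [inner_lift]
      have hb : ε ^ (j.1 + 1) ≤ ε * ε ^ (i.1 + 1) := by
        rw [← pow_succ']
        exact pow_le_pow_of_le_one hεpos.le hε1 (by omega)
      refine (key (hpow0 i.1) (hpow1 i.1) (hpow0 j.1) hb (hpow1 j.1)
        (le_coherence f (ne_of_lt hij))).trans ?_
      have h1 : 1 / (4 * (N : ℝ)) ≤ c / 2 - ε := by
        rw [hε]
        have : 1 / (N : ℝ) = 4 * (1 / (4 * N)) := by field_simp
        linarith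
      have h2 : (ε ^ N) ^ 2 ≤ (ε ^ (i.1 + 1)) ^ 2 := by
        have : ε ^ N ≤ ε ^ (i.1 + 1) := pow_le_pow_of_le_one hεpos.le hε1 (by omega)
        exact pow_le_pow_left₀ (by positivity) this 2
      have h3 : δ ≤ (ε ^ (i.1 + 1)) ^ 2 * (c / 2 - ε) := by
        rw [hδ]
        exact mul_le_mul h2 h1 (by positivity) (by positivity)
      linarith
    have hne : ∀ i j : Fin N, i ≠ j → |inner ℝ (g i) (g j)| ≤ c - δ := by
      intro i j hij
      rcases lt_or_gt_of_ne hij with h | h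
      · exact hlt i j h
      · rw [real_inner_comm]
        exact hlt j i h
    have hgc : coherence g ≤ c - δ := coherence_le hN g hne
    refine le_trans (csInf_le ?_ ⟨g, hgn, rfl⟩) hgc
    refine ⟨0, ?_⟩
    rintro _ ⟨h, _, rfl⟩
    have h01 : (⟨0, by omega⟩ : Fin N) ≠ ⟨1, by omega⟩ := by simp [Fin.ext_iff]
    exact le_trans (abs_nonneg _) (le_coherence h h01)
  have hne : {c : ℝ | ∃ f : Fin N → EuclideanSpace ℝ (Fin M),
      (∀ i, ‖f i‖ = 1) ∧ c = coherence f}.Nonempty := by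
    refine ⟨_, fun _ => EuclideanSpace.single ⟨0, by omega⟩ 1, fun i => ?_, rfl⟩
    simp
  have hle : optimalCoherence N (M + 1) + δ ≤ optimalCoherence N M := by
    refine le_csInf hne ?_
    rintro _ ⟨f, hf, rfl⟩
    have := hmain f hf
    linarith
  linarith

end Pool.Agent.Results.MP_9149b8_co.StrictMonotone
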